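import Mathlib
import Pool.Agent.Helper212.NonBorel
import Pool.Agent.X219.Fusion

set_option autoImplicit false

namespace Pool.Agent.Results.MP_62a6df_lc.CompleteImpliesUniversal

open Set MeasureTheory Filter
open Pool.Agent.X219.PB Pool.Agent.X219.FS

/-- Analytic subsets of a standard Borel space: projections of Borel subsets of `X × ℕ^ℕ`. -/
def IsAnalytic {X : Type} [MeasurableSpace X] (s : Set X) : Prop :=
  ∃ B : Set (X × (ℕ → ℕ)), MeasurableSet B ∧ s = Prod.fst '' B

/-- Analytic quasi-orders. -/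
def AnalyticQO {X : Type} [MeasurableSpace X] (S : X → X → Prop) : Prop :=
  (∀ x, S x x) ∧ (∀ x y z, S x y → S y z → S x z) ∧ IsAnalytic {p : X × X | S p.1 p.2}

/-- Borel reducibility of relations. -/
def BorelRed {X Y : Type} [MeasurableSpace X] [MeasurableSpace Y]
    (R : X → X → Prop) (R' : Y → Y → Prop) : Prop :=
  ∃ f : X → Y, Measurable f ∧ ∀ x y : X, R x y ↔ R' (f x) (f y)

/-- The restriction of a relation to a set. -/
def restr {X : Type} (S : X → X → Prop) (B : Set X) : B → B → Prop := fun x y => S x y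

/-- Complete analytic quasi-orders. -/
def CompleteQO {X : Type} [MeasurableSpace X] (S : X → X → Prop) : Prop :=
  AnalyticQO S ∧ ∀ (Z : Type) [MeasurableSpace Z] [StandardBorelSpace Z] (R : Z → Z → Prop),
    AnalyticQO R → BorelRed R S

/-- The pair `(S, E)` is invariantly universal. -/
def InvariantlyUniversal {X : Type} [MeasurableSpace X] (S E : X → X → Prop) : Prop :=
  ∀ (Z : Type) [MeasurableSpace Z] [StandardBorelSpace Z] (R : Z → Z → Prop), AnalyticQO R →
    ∃ B : Set X, MeasurableSet B ∧ (∀ x ∈ B, ∀ y, E x y → y ∈ B) ∧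
      BorelRed (restr S B) R ∧ BorelRed R (restr S B)

theorem isAnalytic_of {X : Type} [TopologicalSpace X] [PolishSpace X]
    [MeasurableSpace X] [BorelSpace X] {s : Set X} (h : AnalyticSet s) : IsAnalytic s := by
  rw [AnalyticSet] at h
  rcases h with rfl | ⟨g, hg, rfl⟩
  · exact ⟨∅, MeasurableSet.empty, by simp⟩
  · refine ⟨{p | g p.2 = p.1}, measurableSet_eq_fun (hg.measurable.comp measurable_snd)
      measurable_fst, ?_⟩
    ext x
    constructor
    · rintro ⟨z, rfl⟩
      exact ⟨(g z, z), rfl, rfl⟩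
    · rintro ⟨⟨x', z⟩, hz, rfl⟩
      exact ⟨z, hz⟩

/-- Baire space -/
abbrev N : Type := ℕ → ℕ

theorem polishProd {X Y : Type} [TopologicalSpace X] [TopologicalSpace Y] [PolishSpace X]
    [PolishSpace Y] : PolishSpace (X × Y) := inferInstance

theorem polishN : PolishSpace N := inferInstance

theorem polishC : PolishSpace C := by
  have : TopologicalSpace.IsCompletelyMetrizableSpace (ℕ → Bool) :=
    TopologicalSpace.IsCompletelyMetrizableSpace.pi_countable
  exact (inferInstance : PolishSpace (ℕ → Bool))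

theorem polishNC : PolishSpace (ℕ → C) := by
  have := polishC
  have : TopologicalSpace.IsCompletelyMetrizableSpace (ℕ → C) :=
    TopologicalSpace.IsCompletelyMetrizableSpace.pi_countable
  infer_instance

attribute [local instance] polishProd polishN polishC polishNC

theorem borelProd {X Y : Type} [TopologicalSpace X] [TopologicalSpace Y] [PolishSpace X]
    [PolishSpace Y] [MeasurableSpace X] [MeasurableSpace Y] [BorelSpace X] [BorelSpace Y] :
    BorelSpace (X × Y) := Prod.borelSpace

theorem borelX : BorelSpace ((N × N) × C) := by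
  have : BorelSpace (N × N) := borelProd
  exact borelProd

theorem borelXX : BorelSpace (((N × N) × C) × ((N × N) × C)) := by
  have := borelX
  exact borelProd

attribute [local instance] borelX borelXX

/-- encoding of the parameter and the pair -/
def enc (p : N × (C × C)) : N := fun n => Nat.pair (p.1 n) (Nat.pair (p.2.1 n).toNat (p.2.2 n).toNat)

theorem toNat_inj {a b : Bool} (h : a.toNat = b.toNat) : a = b := by
  cases a <;> cases b <;> simp_all

theorem enc_inj : Function.Injective enc := by
  rintro ⟨e, u, u'⟩ ⟨d, v, v'⟩ h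
  have key : ∀ n, e n = d n ∧ (u n).toNat = (v n).toNat ∧ (u' n).toNat = (v' n).toNat := by
    intro n
    have := congrFun h n
    simp only [enc, Nat.pair_eq_pair] at this
    exact this
  have h1 : e = d := funext fun n => (key n).1
  have h2 : u = v := funext fun n => toNat_inj (key n).2.1
  have h3 : u' = v' := funext fun n => toNat_inj (key n).2.2
  rw [h1, h2, h3]

theorem continuous_enc : Continuous enc := by
  refine continuous_pi fun n => ?_
  have h : Continuous (fun q : ℕ × (Bool × Bool) => Nat.pair q.1 (Nat.pair q.2.1.toNat q.2.2.toNat)) :=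
    continuous_of_discreteTopology
  have h2 : Continuous (fun p : N × (C × C) => ((p.1 n, (p.2.1 n, p.2.2 n)) : ℕ × (Bool × Bool))) := by
    fun_prop
  exact h.comp h2

/-- the universal analytic relation -/
def W (c : N × N) (x y : C) : Prop := Pool.Agent.Helper212.Sq.Wu c.1 (enc (c.2, (x, y)))

/-- the universal analytic quasi-order -/
def S0 (p q : (N × N) × C) : Prop := p.1 = q.1 ∧ Relation.ReflTransGen (W p.1) p.2 q.2

open Pool.Agent.Helper212.Sq in
theorem analytic_Wu : AnalyticSet {p : N × N | Wu p.1 p.2} := by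
  have hm : MeasurableSet {p : (N × N) × N |
      ∀ n, p.1.1 (Encodable.encode (Pool.Agent.Helper212.Sq.br p.1.2 n,
        Pool.Agent.Helper212.Sq.br p.2 n)) = 1} := by
    have : {p : (N × N) × N | ∀ n, p.1.1 (Encodable.encode (Pool.Agent.Helper212.Sq.br p.1.2 n,
        Pool.Agent.Helper212.Sq.br p.2 n)) = 1}
        = ⋂ n, ⋃ q : List ℕ × List ℕ, ((fun p : (N × N) × N => p.1.2) ⁻¹' {y | br y n = q.1}) ∩
          (Prod.snd ⁻¹' {z | br z n = q.2}) ∩
          ((fun p : (N × N) × N => p.1.1) ⁻¹' ((fun y => y (Encodable.encode q)) ⁻¹' {1})) := by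
      ext p
      simp only [mem_ofPred_eq, mem_iInter, mem_iUnion, mem_inter_iff, mem_preimage,
        mem_singleton_iff]
      refine forall_congr' fun n => ⟨fun h => ⟨(br p.1.2 n, br p.2 n), ⟨rfl, rfl⟩, h⟩, ?_⟩
      rintro ⟨⟨a, b⟩, ⟨h1, h2⟩, h3⟩
      simp only at h1 h2
      rw [h1, h2]; exact h3
    rw [this]
    refine MeasurableSet.iInter fun n => MeasurableSet.iUnion fun q => ?_
    refine ((?_ : MeasurableSet _).inter ?_).inter ?_
    · exact (measurable_snd.comp measurable_fst) (measurable_br n q.1)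
    · exact measurable_snd (measurable_br n q.2)
    · exact (measurable_fst.comp measurable_fst) (measurable_pi_apply _ (measurableSet_singleton 1))
  have h2 : {p : N × N | Wu p.1 p.2} = Prod.fst ''
      {p : (N × N) × N | ∀ n, p.1.1 (Encodable.encode (Pool.Agent.Helper212.Sq.br p.1.2 n,
        Pool.Agent.Helper212.Sq.br p.2 n)) = 1} := by
    ext p
    constructor
    · rintro ⟨z, hz⟩
      exact ⟨(p, z), hz, rfl⟩
    · rintro ⟨⟨p', z⟩, hz, rfl⟩
      exact ⟨z, hz⟩
  rw [h2]
  exact hm.analyticSet.image_of_continuous continuous_fst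

theorem reflTransGen_iff {α : Type} (r : α → α → Prop) (a b : α) :
    Relation.ReflTransGen r a b ↔ ∃ n : ℕ, ∃ v : ℕ → α, v 0 = a ∧ v n = b ∧
      ∀ i : Fin n, r (v i) (v (i + 1)) := by
  constructor
  · intro h
    induction h with
    | refl => exact ⟨0, fun _ => a, rfl, rfl, fun i => i.elim0⟩
    | @tail b c _ hbc ih =>
      obtain ⟨n, v, hv0, hvn, hv⟩ := ih
      refine ⟨n + 1, fun i => if i ≤ n then v i else c, by simp [hv0], by simp, ?_⟩
      intro i
      have hi := i.2
      by_cases h : (i : ℕ) < n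
      · have h1 : (i : ℕ) ≤ n := h.le
        have h2 : (i : ℕ) + 1 ≤ n := h
        simp only [h1, h2, if_true]
        exact hv ⟨i, h⟩
      · have h1 : (i : ℕ) = n := by omega
        have h2 : ¬ ((n : ℕ) + 1 ≤ n) := by omega
        simp only [h1, le_refl, if_true, h2, if_false]
        rw [hvn]
        exact hbc
  · rintro ⟨n, v, hv0, hvn, hv⟩
    have key : ∀ k ≤ n, Relation.ReflTransGen r (v 0) (v k) := by
      intro k
      induction k with
      | zero => intro _; exact Relation.ReflTransGen.refl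
      | succ k ih =>
        intro hk
        exact (ih (by omega)).tail (hv ⟨k, by omega⟩)
    have := key n le_rfl
    rwa [hv0, hvn] at this

theorem analytic_S0 : AnalyticSet {p : ((N × N) × C) × ((N × N) × C) | S0 p.1 p.2} := by
  -- paths
  have hn : ∀ n : ℕ, AnalyticSet {p : (((N × N) × C) × ((N × N) × C)) × (ℕ → C) |
      p.1.1.1 = p.1.2.1 ∧ p.2 0 = p.1.1.2 ∧ p.2 n = p.1.2.2 ∧
        ∀ i : Fin n, W p.1.1.1 (p.2 i) (p.2 (i + 1))} := by
    intro n
    have hcl : AnalyticSet {p : (((N × N) × C) × ((N × N) × C)) × (ℕ → C) |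
        p.1.1.1 = p.1.2.1 ∧ p.2 0 = p.1.1.2 ∧ p.2 n = p.1.2.2} := by
      have h1 : IsClosed {p : (((N × N) × C) × ((N × N) × C)) × (ℕ → C) | p.1.1.1 = p.1.2.1} :=
        isClosed_eq (by fun_prop) (by fun_prop)
      have h2 : IsClosed {p : (((N × N) × C) × ((N × N) × C)) × (ℕ → C) | p.2 0 = p.1.1.2} :=
        isClosed_eq (by fun_prop) (by fun_prop)
      have h3 : IsClosed {p : (((N × N) × C) × ((N × N) × C)) × (ℕ → C) | p.2 n = p.1.2.2} :=
        isClosed_eq (by fun_prop) (by fun_prop)
      have h4 := (h1.inter (h2.inter h3)).analyticSet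
      exact h4
    have hW : ∀ i : Fin n, AnalyticSet {p : (((N × N) × C) × ((N × N) × C)) × (ℕ → C) |
        W p.1.1.1 (p.2 i) (p.2 (i + 1))} := by
      intro i
      have hc : Continuous (fun p : (((N × N) × C) × ((N × N) × C)) × (ℕ → C) =>
          ((p.1.1.1.1, enc (p.1.1.1.2, (p.2 i, p.2 (i + 1)))) : N × N)) := by
        refine Continuous.prodMk (by fun_prop) ?_
        exact continuous_enc.comp (by fun_prop : Continuous
          (fun p : (((N × N) × C) × ((N × N) × C)) × (ℕ → C) =>
            ((p.1.1.1.2, (p.2 i, p.2 (i + 1))) : N × (C × C))))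
      exact analytic_Wu.preimage hc
    have hset : {p : (((N × N) × C) × ((N × N) × C)) × (ℕ → C) |
      p.1.1.1 = p.1.2.1 ∧ p.2 0 = p.1.1.2 ∧ p.2 n = p.1.2.2 ∧
        ∀ i : Fin n, W p.1.1.1 (p.2 i) (p.2 (i + 1))}
        = ⋂ j : Option (Fin n), (match j with
          | none => {p : (((N × N) × C) × ((N × N) × C)) × (ℕ → C) |
              p.1.1.1 = p.1.2.1 ∧ p.2 0 = p.1.1.2 ∧ p.2 n = p.1.2.2}
          | some i => {p : (((N × N) × C) × ((N × N) × C)) × (ℕ → C) |
              W p.1.1.1 (p.2 i) (p.2 (i + 1))}) := by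
      ext p
      simp only [mem_iInter]
      constructor
      · rintro ⟨h1, h2, h3, h4⟩ j
        cases j with
        | none => exact ⟨h1, h2, h3⟩
        | some i => exact h4 i
      · intro h
        obtain ⟨h1, h2, h3⟩ := h none
        exact ⟨h1, h2, h3, fun i => h (some i)⟩
    rw [hset]
    refine AnalyticSet.iInter fun j => ?_
    cases j with
    | none => exact hcl
    | some i => exact hW i
  have hset : {p : ((N × N) × C) × ((N × N) × C) | S0 p.1 p.2} = ⋃ n : ℕ, Prod.fst ''
      {p : (((N × N) × C) × ((N × N) × C)) × (ℕ → C) |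
      p.1.1.1 = p.1.2.1 ∧ p.2 0 = p.1.1.2 ∧ p.2 n = p.1.2.2 ∧
        ∀ i : Fin n, W p.1.1.1 (p.2 i) (p.2 (i + 1))} := by
    ext p
    simp only [mem_iUnion]
    constructor
    · rintro ⟨h1, h2⟩
      rw [reflTransGen_iff] at h2
      obtain ⟨n, v, hv0, hvn, hv⟩ := h2
      exact ⟨n, (p, v), ⟨h1, hv0, hvn, hv⟩, rfl⟩
    · rintro ⟨n, ⟨p', v⟩, ⟨h1, h2, h3, h4⟩, rfl⟩
      refine ⟨h1, ?_⟩
      rw [reflTransGen_iff]
      exact ⟨n, v, h2, h3, h4⟩
  rw [hset]
  exact AnalyticSet.iUnion fun n => (hn n).image_of_continuous continuous_fst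

theorem S0_refl (p : (N × N) × C) : S0 p p := ⟨rfl, Relation.ReflTransGen.refl⟩

theorem S0_qo : AnalyticQO S0 := by
  refine ⟨S0_refl, ?_, isAnalytic_of analytic_S0⟩
  rintro p q r ⟨h1, h2⟩ ⟨h3, h4⟩
  refine ⟨h1.trans h3, ?_⟩
  rw [← h1] at h4
  exact h2.trans h4

theorem exists_embedding (Z : Type) [MeasurableSpace Z] [StandardBorelSpace Z] :
    ∃ i : Z → C, MeasurableEmbedding i := by
  obtain ⟨f, hf⟩ := exists_measurableEmbedding_real Z
  have h2 : Cardinal.mk C = Cardinal.continuum := by
    simp [C]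
  have hN : ¬ Countable C := by
    intro h
    have h1 : Cardinal.mk C ≤ Cardinal.aleph0 := Cardinal.mk_le_aleph0_iff.2 h
    rw [h2] at h1
    exact absurd h1 (not_le.2 Cardinal.aleph0_lt_continuum)
  have e : ℝ ≃ᵐ C := PolishSpace.measurableEquivOfNotCountable
    (by
      intro h
      have := Cardinal.mk_le_aleph0_iff.2 h
      rw [Cardinal.mk_real] at this
      exact absurd this (not_le.2 Cardinal.aleph0_lt_continuum)) hN
  exact ⟨e ∘ f, e.measurableEmbedding.comp hf⟩

/-- Every complete analytic quasi-order contains every analytic quasi-order through an injective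
Borel reduction. -/
theorem injective_reduction {X : Type} [MeasurableSpace X] [StandardBorelSpace X]
    {S : X → X → Prop} (hS : CompleteQO S) (Z : Type) [MeasurableSpace Z] [StandardBorelSpace Z]
    (R : Z → Z → Prop) (hR : AnalyticQO R) :
    ∃ f : Z → X, Measurable f ∧ Function.Injective f ∧ ∀ z z', R z z' ↔ S (f z) (f z') := by
  obtain ⟨g, hg, hgS⟩ := hS.2 ((N × N) × C) S0 S0_qo
  -- the pairs identified by the reduction on the diagonal sections
  have : BorelSpace (C × C) := borelProd
  have hE : MeasurableSet {p : N × (C × C) | g ((p.1, p.1), p.2.1) = g ((p.1, p.1), p.2.2)} := by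
    refine measurableSet_eq_fun ?_ ?_
    · exact hg.comp ((measurable_fst.prodMk measurable_fst).prodMk
        (measurable_fst.comp measurable_snd))
    · exact hg.comp ((measurable_fst.prodMk measurable_fst).prodMk
        (measurable_snd.comp measurable_snd))
  obtain ⟨b, hb, hd, havoid⟩ := exists_avoiding basis_V2 hE
  obtain ⟨κ, hκ, hκinj, hκb, hκr⟩ := mycielski b hb hd
  obtain ⟨i, hi⟩ := exists_embedding Z
  obtain ⟨hrefl, htrans, B, hB, hRB⟩ := hR
  -- the relation to be diagonalized
  have hQ : AnalyticSet ((fun p : N × ((Z × Z) × N) =>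
      enc (p.1, (κ p.1 (i p.2.1.1), κ p.1 (i p.2.1.2)))) '' (Prod.snd ⁻¹' B)) := by
    refine (measurable_snd hB).analyticSet_image ?_
    refine continuous_enc.measurable.comp ?_
    refine measurable_fst.prodMk (Measurable.prodMk ?_ ?_)
    · exact hκ.comp (measurable_fst.prodMk (hi.measurable.comp
        (measurable_fst.comp (measurable_fst.comp measurable_snd))))
    · exact hκ.comp (measurable_fst.prodMk (hi.measurable.comp
        (measurable_snd.comp (measurable_fst.comp measurable_snd))))
  obtain ⟨q, hq⟩ := Pool.Agent.Helper212.Sq.universal _ hQ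
  have hW : ∀ u u' : C, W (q, q) u u' ↔ ∃ z z', κ q (i z) = u ∧ κ q (i z') = u' ∧ R z z' := by
    intro u u'
    unfold W
    rw [← hq]
    constructor
    · rintro ⟨⟨e, ⟨⟨z, z'⟩, w⟩⟩, hw, h⟩
      have h1 := enc_inj h
      simp only [Prod.mk.injEq] at h1
      obtain ⟨rfl, rfl, rfl⟩ := h1
      refine ⟨z, z', rfl, rfl, ?_⟩
      have : (z, z') ∈ {p : Z × Z | R p.1 p.2} := by
        rw [hRB]
        exact ⟨((z, z'), w), hw, rfl⟩
      exact this
    · rintro ⟨z, z', rfl, rfl, h⟩
      have : (z, z') ∈ {p : Z × Z | R p.1 p.2} := h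
      rw [hRB] at this
      obtain ⟨⟨p, w⟩, hw, hp⟩ := this
      simp only at hp
      subst hp
      exact ⟨(q, ((z, z'), w)), hw, rfl⟩
  have hgen : ∀ u u', Relation.ReflTransGen (W (q, q)) u u' ↔
      (u = u' ∨ ∃ z z', κ q (i z) = u ∧ κ q (i z') = u' ∧ R z z') := by
    intro u u'
    constructor
    · intro h
      induction h with
      | refl => exact Or.inl rfl
      | tail _ h2 ih =>
        obtain ⟨z1, z2, h3, h4, h5⟩ := (hW _ _).1 h2
        rcases ih with rfl | ⟨z3, z4, h6, h7, h8⟩
        · exact Or.inr ⟨z1, z2, h3, h4, h5⟩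
        · have h9 : z4 = z1 := hi.injective (hκinj q (h7.trans h3.symm))
          subst h9
          exact Or.inr ⟨z3, z2, h6, h4, htrans _ _ _ h8 h5⟩
    · rintro (rfl | h)
      · exact Relation.ReflTransGen.refl
      · exact Relation.ReflTransGen.single ((hW _ _).2 h)
  refine ⟨fun z => g ((q, q), κ q (i z)), ?_, ?_, ?_⟩
  · exact hg.comp (measurable_const.prodMk (hκ.comp (measurable_const.prodMk hi.measurable)))
  · -- injectivity
    intro z z' hzz
    by_contra hne
    have hne' : i z ≠ i z' := fun h => hne (hi.injective h)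
    refine havoid q ?_ (κ q (i z), κ q (i z')) (fun n => hκb q _ _ hne' n) hzz
    have h1 : ∀ᶠ p in residual (C × C), p.1 ∉ range (κ q) :=
      (tendsto_residual_of_isOpenMap continuous_fst isOpenMap_fst).eventually (hκr q)
    have h2 : ∀ᶠ p in residual (C × C), p.1 ≠ p.2 := by
      have hop : IsOpen {p : C × C | p.1 ≠ p.2} := isOpen_ne_fun continuous_fst continuous_snd
      refine residual_of_dense_open hop ?_
      rw [basis_V2.dense_iff]
      rintro _ ⟨⟨σ, τ⟩, rfl⟩ _
      obtain ⟨u, hu⟩ := nonempty_cyl σ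
      obtain ⟨v, hv⟩ := nonempty_cyl τ
      by_cases huv : u = v
      · refine ⟨(u, Function.update v τ.length (!(v τ.length))), ⟨hu, ?_⟩, ?_⟩
        · intro j hj
          have hj' : j < τ.length := hj
          show Function.update v τ.length (!(v τ.length)) j = τ[j]
          rw [Function.update_of_ne (by omega)]
          exact hv j hj'
        · intro h
          simp only at h
          have := congrFun h τ.length
          rw [Function.update_self, huv] at this
          simp at this
      · exact ⟨(u, v), ⟨hu, hv⟩, huv⟩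
    filter_upwards [h1, h2] with p hp1 hp2 hp3
    have hp4 : g ((q, q), p.1) = g ((q, q), p.2) := hp3
    have hp5 : S0 ((q, q), p.1) ((q, q), p.2) := by
      rw [hgS, ← hp4]
      exact hS.1.1 _
    rcases (hgen _ _).1 hp5.2 with h | ⟨z1, z2, h3, _, _⟩
    · exact hp2 h
    · exact hp1 ⟨i z1, h3⟩
  · intro z z'
    rw [← hgS]
    constructor
    · intro h
      exact ⟨rfl, (hgen _ _).2 (Or.inr ⟨z, z', rfl, rfl, h⟩)⟩
    · rintro ⟨_, h⟩
      rcases (hgen _ _).1 h with h1 | ⟨z1, z2, h1, h2, h3⟩
      · have : z = z' := hi.injective (hκinj q h1)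
        rw [this]
        exact hrefl _
      · have e1 : z1 = z := hi.injective (hκinj q h1)
        have e2 : z2 = z' := hi.injective (hκinj q h2)
        rw [← e1, ← e2]
        exact h3

theorem result {X : Type} [MeasurableSpace X] [StandardBorelSpace X]
    (S : X → X → Prop) (hS : CompleteQO S) :
    InvariantlyUniversal S Eq ∧
    ∀ (Z : Type) [MeasurableSpace Z] [StandardBorelSpace Z] (R : Z → Z → Prop), AnalyticQO R →
      ∃ f : Z → X, Measurable f ∧ Function.Injective f ∧ ∀ z z', R z z' ↔ S (f z) (f z') := by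
  have main := fun (Z : Type) [MeasurableSpace Z] [StandardBorelSpace Z] (R : Z → Z → Prop)
    (hR : AnalyticQO R) => injective_reduction hS Z R hR
  refine ⟨?_, main⟩
  intro Z _ _ R hR
  obtain ⟨f, hf, hinj, hfR⟩ := main Z R hR
  have hemb : MeasurableEmbedding f := hf.measurableEmbedding hinj
  refine ⟨range f, hemb.measurableSet_range, ?_, ?_, ?_⟩
  · intro x hx y hxy
    rw [← hxy]
    exact hx
  · refine ⟨hemb.equivRange.symm, hemb.equivRange.symm.measurable, ?_⟩
    rintro ⟨_, z, rfl⟩ ⟨_, z', rfl⟩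
    have e1 : hemb.equivRange.symm ⟨f z, ⟨z, rfl⟩⟩ = z := by
      rw [MeasurableEquiv.symm_apply_eq]
      exact (hemb.equivRange_apply z).symm
    have e2 : hemb.equivRange.symm ⟨f z', ⟨z', rfl⟩⟩ = z' := by
      rw [MeasurableEquiv.symm_apply_eq]
      exact (hemb.equivRange_apply z').symm
    rw [e1, e2, hfR]
    rfl
  · refine ⟨fun z => ⟨f z, z, rfl⟩, hf.subtype_mk, ?_⟩
    intro z z'
    exact hfR z z'

end Pool.Agent.Results.MP_62a6df_lc.CompleteImpliesUniversal
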